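import Pool.Agent.helper9.HQ.Spec

set_option autoImplicit false

/-! Row hq:CC (helper98): uniform continuity. -/

open scoped Classical

namespace Pool.Agent.helper9.HQ

open Finset
open Pool.Agent.helper65.HC (V IsEig IsTop lam)

theorem CC_uc (f : ℝ → ℝ) (hf : Continuous f) (eps : ℝ) (he : 0 < eps) :
    ∃ de : ℝ, 0 < de ∧ ∀ a b : ℝ, 0 ≤ a → a ≤ 1 → 0 ≤ b → b ≤ 1 → |a - b| < de →
      |f a - f b| < eps := by
  have h := (isCompact_Icc (a := (0 : ℝ)) (b := 1)).uniformContinuousOn_of_continuous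
    hf.continuousOn
  obtain ⟨de, h1, h2⟩ := Metric.uniformContinuousOn_iff.1 h eps he
  refine ⟨de, h1, fun a b ha ha' hb hb' hab => ?_⟩
  have h3 := h2 a ⟨ha, ha'⟩ b ⟨hb, hb'⟩ (by rwa [Real.dist_eq])
  rwa [Real.dist_eq] at h3

theorem CC_cS : Continuous cS := by
  unfold cS
  fun_prop

theorem CC_cC : Continuous cC := by
  unfold cC
  fun_prop

theorem CC_1 : Continuous fun a : ℝ => cS (1 - √(1 - a)) :=
  CC_cS.comp (by fun_prop)

theorem CC_2 : Continuous fun a : ℝ => cC (√a) :=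
  CC_cC.comp (by fun_prop)

theorem CC_c : Continuous c := CC_1.max CC_2

theorem CC : CC_stmt := by
  intro eps he
  obtain ⟨d1, h1, k1⟩ := CC_uc _ CC_c eps he
  obtain ⟨d2, h2, k2⟩ := CC_uc _ CC_1 eps he
  obtain ⟨d3, h3, k3⟩ := CC_uc _ CC_2 eps he
  refine ⟨min d1 (min d2 d3), lt_min h1 (lt_min h2 h3), fun a b ha ha' hb hb' hab => ?_⟩
  have e1 : |a - b| < d1 := lt_of_lt_of_le hab (min_le_left _ _)
  have e2 : |a - b| < d2 := lt_of_lt_of_le hab ((min_le_right _ _).trans (min_le_left _ _))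
  have e3 : |a - b| < d3 := lt_of_lt_of_le hab ((min_le_right _ _).trans (min_le_right _ _))
  exact ⟨k1 a b ha ha' hb hb' e1, k2 a b ha ha' hb hb' e2, k3 a b ha ha' hb hb' e3⟩

end Pool.Agent.helper9.HQ
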