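import Pool.Agent.helper9.HQ.Spec

set_option autoImplicit false

/-! Row hq:FA (helper98): type A against the quasi-star. -/

open scoped Classical

namespace Pool.Agent.helper9.HQ

open Finset
open Pool.Agent.helper65.HC (V IsEig IsTop lam)

theorem FA_zz (n : ℕ) (u : ℝ) (hu : 0 < u) : 0 < zz n u ∧ zz n u ≤ 1 := by
  unfold zz
  have h1 : (0 : ℝ) < (1 + u) ^ n := by positivity
  refine ⟨by positivity, ?_⟩
  rw [div_le_one h1]
  exact one_add_mul_le_pow (by linarith) n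

theorem FA (hSTAR : STAR_stmt) (hCM : CM_stmt) : FA_stmt := by
  intro n u l al hn hu hl hal hal1
  obtain ⟨hz0, hz1⟩ := FA_zz n u hu
  have hst := hSTAR n u hn hu
  generalize zz n u = z at *
  generalize YY n u = Y at *
  obtain ⟨s, hs⟩ : ∃ s : ℝ, s = √(1 - z) := ⟨_, rfl⟩
  rw [← hs] at hst
  have hs0 : 0 ≤ s := by
    rw [hs]
    exact Real.sqrt_nonneg _
  have hs2 : s ^ 2 = 1 - z := by
    rw [hs]
    exact Real.sq_sqrt (by linarith)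
  have hz : z = 1 - s ^ 2 := by linarith
  have hs1 : s < 1 := by nlinarith
  subst hz
  have hD : 0 < 1 + 3 * s ^ 2 := by positivity
  have hDe : 4 - 3 * (1 - s ^ 2) = 1 + 3 * s ^ 2 := by ring
  rw [hDe] at hl hal
  obtain ⟨s₀, hs₀⟩ : ∃ s₀ : ℝ, s₀ = (1 - s) ^ 2 / (1 + 3 * s ^ 2) := ⟨_, rfl⟩
  have hs₀D : s₀ * (1 + 3 * s ^ 2) = (1 - s) ^ 2 := by
    rw [hs₀]
    field_simp
  have hs₀0 : 0 ≤ s₀ := by
    rw [hs₀]
    positivity
  have hs₀1 : s₀ ≤ 1 := by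
    rw [hs₀, div_le_one hD]
    nlinarith
  have hlD : (l - 1 - s₀) * (1 + 3 * s ^ 2) = (1 - s) * (1 + 3 * s) := by
    linear_combination hl - hs₀D
  have hl0 : 0 ≤ l - 1 - s₀ := by
    have h1 : 0 ≤ (l - 1 - s₀) * (1 + 3 * s ^ 2) := by
      rw [hlD]
      exact mul_nonneg (by linarith) (by linarith)
    exact nonneg_of_mul_nonneg_left h1 hD
  have hsq : (l - 1 - s₀) ^ 2 = 4 * s₀ - 3 * s₀ ^ 2 := by
    have h1 : ((l - 1 - s₀) ^ 2 - (4 * s₀ - 3 * s₀ ^ 2)) * (1 + 3 * s ^ 2) ^ 2 = 0 := by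
      have h2 : ((l - 1 - s₀) ^ 2 - (4 * s₀ - 3 * s₀ ^ 2)) * (1 + 3 * s ^ 2) ^ 2 =
          ((l - 1 - s₀) * (1 + 3 * s ^ 2)) ^ 2 - 4 * (s₀ * (1 + 3 * s ^ 2)) * (1 + 3 * s ^ 2) +
            3 * (s₀ * (1 + 3 * s ^ 2)) ^ 2 := by ring
      rw [h2, hlD, hs₀D]
      ring
    have h3 : (1 + 3 * s ^ 2) ^ 2 ≠ 0 := by positivity
    rcases mul_eq_zero.1 h1 with h4 | h4
    · linarith
    · exact absurd h4 h3
  have hcS : cS s₀ = l := by
    unfold cS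
    rw [← hsq, Real.sqrt_sq hl0]
    ring
  have hal2 : 2 * s₀ - s₀ ^ 2 ≤ al := by
    have h1 : (2 * s₀ - s₀ ^ 2) * (1 + 3 * s ^ 2) ^ 2 ≤ al * (1 + 3 * s ^ 2) ^ 2 := by
      have h2 : (2 * s₀ - s₀ ^ 2) * (1 + 3 * s ^ 2) ^ 2 =
          2 * (s₀ * (1 + 3 * s ^ 2)) * (1 + 3 * s ^ 2) - (s₀ * (1 + 3 * s ^ 2)) ^ 2 := by ring
      rw [h2, hs₀D, hal]
      have h3 : 0 ≤ 4 * (1 + s) * (2 * s ^ 2 - (1 - s) * Y) := by
        refine mul_nonneg (by linarith) ?_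
        linarith
      nlinarith
    exact le_of_mul_le_mul_right h1 (by positivity)
  have hsqrt : √(1 - al) ≤ 1 - s₀ := by
    rw [← Real.sqrt_sq (show (0 : ℝ) ≤ 1 - s₀ by linarith)]
    apply Real.sqrt_le_sqrt
    nlinarith
  rw [← hcS]
  exact hCM.1 _ _ hs₀0 (by linarith) (by linarith [Real.sqrt_nonneg (1 - al)])

end Pool.Agent.helper9.HQ
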