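import Pool.Agent.helper9.HQ.Spec

set_option autoImplicit false

/-! Row hq:QF (helper98): the levels at most two. -/

open scoped Classical

namespace Pool.Agent.helper9.HQ

open Finset
open Pool.Agent.helper65.HC (V IsEig IsTop lam)

theorem QF_split {d : ℕ} (U : Fam d) (h0 : ∅ ∈ U) (g : Finset (Fin d) → ℝ) :
    ∑ x ∈ lo U, g x = g ∅ + (∑ i, if {i} ∈ U then g {i} else 0) +
      ∑ p ∈ U.filter (fun x => x.card = 2), g p := by
  have e0 : ∑ x ∈ U.filter (fun x => x.card = 0), g x = g ∅ := by
    have : U.filter (fun x => x.card = 0) = {∅} := by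
      ext x
      rw [Finset.mem_filter, Finset.mem_singleton, Finset.card_eq_zero]
      constructor
      · exact fun h => h.2
      · rintro rfl
        exact ⟨h0, rfl⟩
    rw [this, Finset.sum_singleton]
  have e1 : ∑ x ∈ U.filter (fun x => x.card = 1), g x =
      ∑ i, if {i} ∈ U then g {i} else 0 := by
    rw [← Finset.sum_filter]
    have : U.filter (fun x => x.card = 1) =
        (univ.filter fun i : Fin d => ({i} : Finset (Fin d)) ∈ U).image fun i => {i} := by
      ext x
      rw [Finset.mem_filter, Finset.mem_image]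
      constructor
      · rintro ⟨h1, h2⟩
        obtain ⟨i, rfl⟩ := Finset.card_eq_one.1 h2
        exact ⟨i, Finset.mem_filter.2 ⟨Finset.mem_univ _, h1⟩, rfl⟩
      · rintro ⟨i, h1, rfl⟩
        exact ⟨(Finset.mem_filter.1 h1).2, Finset.card_singleton _⟩
    rw [this, Finset.sum_image]
    intro i _ j _ h
    exact Finset.singleton_injective h
  rw [← e0, ← e1]
  unfold lo
  rw [Finset.sum_filter, Finset.sum_filter, Finset.sum_filter, Finset.sum_filter,
    ← Finset.sum_add_distrib, ← Finset.sum_add_distrib]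
  refine Finset.sum_congr rfl fun x _ => ?_
  by_cases h0 : x.card = 0
  · simp [h0]
  · by_cases h1 : x.card = 1
    · simp [h1]
    · by_cases h2 : x.card = 2
      · simp [h2]
      · rw [if_neg (by omega), if_neg h0, if_neg h1, if_neg h2]
        norm_num

theorem QF : QF_stmt := by
  intro d U L hU hL hgf f
  by_cases h0 : (∅ : Finset (Fin d)) ∈ U
  swap
  · have hemp : U = ∅ := by
      rw [Finset.eq_empty_iff_forall_notMem]
      intro x hx
      exact h0 (hU x hx ∅ (Finset.empty_subset _))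
    subst hemp
    unfold E N lo
    simp
  set G : Fam d := U.filter fun x => x.card = 2 with hG
  set y : Fin d → ℝ := fun i => if {i} ∈ U then f {i} else 0 with hy
  have hN : N (lo U) f = f ∅ ^ 2 + ∑ i, y i ^ 2 + ∑ p ∈ G, f p ^ 2 := by
    unfold N
    rw [QF_split U h0]
    congr 2
    refine Finset.sum_congr rfl fun i _ => ?_
    rw [hy]
    by_cases h : ({i} : Finset (Fin d)) ∈ U
    · simp only [if_pos h]
    · simp only [if_neg h]
      norm_num
  have hE : E (lo U) f = 2 * (f ∅ * ∑ i, y i + ∑ p ∈ G, f p * ∑ i ∈ p, y i) := by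
    unfold E
    rw [QF_split U h0, Finset.sum_empty, zero_add, Finset.mul_sum]
    congr 2
    · refine Finset.sum_congr rfl fun i _ => ?_
      rw [hy]
      by_cases h : ({i} : Finset (Fin d)) ∈ U
      · simp only [if_pos h, Finset.sum_singleton, Finset.erase_singleton]
        ring
      · simp only [if_neg h]
        norm_num
    · refine Finset.sum_congr rfl fun p hp => ?_
      obtain ⟨hpU, hp2⟩ := Finset.mem_filter.1 hp
      rw [← Finset.mul_sum]
      congr 1
      obtain ⟨i, j, hij, rfl⟩ := Finset.card_eq_two.1 hp2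
      have hi : ({i} : Finset (Fin d)) ∈ U := hU _ hpU _ (by simp)
      have hj : ({j} : Finset (Fin d)) ∈ U := hU _ hpU _ (by simp)
      have e1 : ({i, j} : Finset (Fin d)).erase i = {j} := by
        ext k
        simp only [Finset.mem_erase, Finset.mem_insert, Finset.mem_singleton]
        constructor
        · rintro ⟨h1, h2 | h2⟩
          · exact absurd h2 h1
          · exact h2
        · rintro rfl
          exact ⟨fun h => hij h.symm, Or.inr rfl⟩
      have e2 : ({i, j} : Finset (Fin d)).erase j = {i} := by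
        ext k
        simp only [Finset.mem_erase, Finset.mem_insert, Finset.mem_singleton]
        constructor
        · rintro ⟨h1, h2 | h2⟩
          · exact h2
          · exact absurd h2 h1
        · rintro rfl
          exact ⟨hij, Or.inl rfl⟩
      rw [Finset.sum_pair hij, Finset.sum_pair hij, e1, e2, hy]
      simp only [if_pos hi, if_pos hj]
      ring
  have hg := hgf y
  have hgdef : gf G y = (∑ i, y i) ^ 2 + ∑ p ∈ G, (∑ i ∈ p, y i) ^ 2 := rfl
  rw [hgdef] at hg
  rw [hE, hN]
  have hB : 0 ≤ ∑ i, y i ^ 2 := Finset.sum_nonneg fun i _ => sq_nonneg _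
  rcases eq_or_lt_of_le hL with hL0 | hL0
  · rw [← hL0, zero_mul] at hg
    have h1 : 0 ≤ ∑ p ∈ G, (∑ i ∈ p, y i) ^ 2 := Finset.sum_nonneg fun p _ => sq_nonneg _
    have h2 : (∑ i, y i) ^ 2 = 0 := by nlinarith [sq_nonneg (∑ i, y i)]
    have h3 : ∑ p ∈ G, (∑ i ∈ p, y i) ^ 2 = 0 := by nlinarith [sq_nonneg (∑ i, y i)]
    have h4 : ∑ i, y i = 0 := by
      rwa [sq_eq_zero_iff] at h2
    have h5 : ∑ p ∈ G, f p * ∑ i ∈ p, y i = 0 := by
      refine Finset.sum_eq_zero fun p hp => ?_
      have h6 := (Finset.sum_eq_zero_iff_of_nonneg (fun p _ => sq_nonneg _)).1 h3 p hp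
      rw [sq_eq_zero_iff] at h6
      rw [h6, mul_zero]
    rw [h4, h5, ← hL0, Real.sqrt_zero]
    norm_num
  · obtain ⟨t, ht⟩ : ∃ t : ℝ, t = √L := ⟨_, rfl⟩
    have ht0 : 0 < t := by
      rw [ht]
      exact Real.sqrt_pos.2 hL0
    have ht2 : L = t * t := by
      rw [ht]
      exact (Real.mul_self_sqrt hL).symm
    rw [← ht]
    have key : ∀ a b : ℝ, 2 * (a * b) ≤ t * a ^ 2 + b ^ 2 / t := by
      intro a b
      have h1 : 0 ≤ (t * a - b) ^ 2 / t := by positivity
      have h2 : (t * a - b) ^ 2 / t = t * a ^ 2 + b ^ 2 / t - 2 * (a * b) := by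
        field_simp
        ring
      linarith
    have h1 := key (f ∅) (∑ i, y i)
    have h2 : ∑ p ∈ G, 2 * (f p * ∑ i ∈ p, y i) ≤
        ∑ p ∈ G, (t * f p ^ 2 + (∑ i ∈ p, y i) ^ 2 / t) :=
      Finset.sum_le_sum fun p _ => key _ _
    rw [Finset.sum_add_distrib, ← Finset.mul_sum, ← Finset.mul_sum, ← Finset.sum_div] at h2
    have h3 : (∑ i, y i) ^ 2 / t + (∑ p ∈ G, (∑ i ∈ p, y i) ^ 2) / t ≤ t * ∑ i, y i ^ 2 := by
      rw [← add_div, div_le_iff₀ ht0]
      rw [ht2] at hg
      linarith
    linarith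

end Pool.Agent.helper9.HQ
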